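import Pool.Agent.W5h80.TL.Seq

set_option linter.dupNamespace false
set_option linter.unusedSectionVars false
set_option linter.style.haveILetI false

open FirstOrder FirstOrder.Language Set

namespace Pool.Agent.Results.MP_d4560b_lc.NoCountableTestSet

section definitions

variable (L : FirstOrder.Language.{0, 0})

/-- The theory of `M` is NIP: no formula `φ(x; y)` in finite tuples of variables has the
independence property. -/
def IsNIP (M : Type) [L.Structure M] : Prop :=
  ∀ (n m : ℕ) (φ : L.Formula (Fin n ⊕ Fin m)), ∃ K : ℕ, ∀ a : Fin K → Fin n → M,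
    ¬ ∀ J : Finset (Fin K), ∃ b : Fin m → M, ∀ i : Fin K,
      (φ.Realize (Sum.elim (a i) b) ↔ i ∈ J)

/-- The theory of `M` is dp-minimal: there is no ict-pattern of depth two in one variable (by
compactness, it is enough to exclude arbitrarily large finite ones, and these can be looked for
in `M`). -/
def IsDpMinimal (M : Type) [L.Structure M] : Prop :=
  ∀ (n m : ℕ) (φ : L.Formula (Fin 1 ⊕ Fin n)) (ψ : L.Formula (Fin 1 ⊕ Fin m)), ∃ K : ℕ,
    ∀ (a : Fin K → Fin n → M) (b : Fin K → Fin m → M),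
      ¬ ∀ i j : Fin K, ∃ x : Fin 1 → M,
        (∀ i' : Fin K, (φ.Realize (Sum.elim x (a i')) ↔ i' = i)) ∧
        (∀ j' : Fin K, (ψ.Realize (Sum.elim x (b j')) ↔ j' = j))

/-- A complete type over all of `U` in the variables indexed by `α`. A formula with variables in
`α` and parameters in `U` is a formula whose free variables are in `α ⊕ U`, where `u : U` is
always evaluated at `u`. -/
structure GType (U : Type) [L.Structure U] (α : Type) where
  /-- the formulas in the type -/
  carrier : Set (L.Formula (α ⊕ U))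
  complete : ∀ φ, φ ∈ carrier ∨ φ.not ∈ carrier
  finsat : ∀ s : Finset (L.Formula (α ⊕ U)), (∀ φ ∈ s, φ ∈ carrier) →
    ∃ a : α → U, ∀ φ ∈ s, φ.Realize (Sum.elim a id)

/-- `U` is `ℵ₁`-saturated: a set of formulas in finitely many variables, with parameters in a
countable set, that is finitely satisfiable in `U`, is realized in `U`. -/
def IsAleph1Saturated (U : Type) [L.Structure U] : Prop :=
  ∀ B : Set U, B.Countable → ∀ (n : ℕ) (S : Set (L.Formula (Fin n ⊕ B))),
    (∀ s : Finset (L.Formula (Fin n ⊕ B)), (∀ φ ∈ s, φ ∈ S) →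
      ∃ a : Fin n → U, ∀ φ ∈ s, φ.Realize (Sum.elim a Subtype.val)) →
    ∃ a : Fin n → U, ∀ φ ∈ S, φ.Realize (Sum.elim a Subtype.val)

variable {L}
variable {M U : Type} [L.Structure M] [L.Structure U]

/-- The tuple `a` realizes the restriction of the type `p` to the set `B` of parameters. -/
def RealizesOver {α : Type} (p : GType L U α) (B : Set U) (a : α → U) : Prop :=
  ∀ φ : L.Formula (α ⊕ B), φ.relabel (Sum.map id Subtype.val) ∈ p.carrier →
    φ.Realize (Sum.elim a Subtype.val)

/-- The type `p` is `M`-invariant, `M` being embedded in `U` by `i`: if `b` and `b'` have the same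
type over `M`, then `p` contains `φ(x; b)` if and only if it contains `φ(x; b')`. -/
def IsInvariant {α : Type} (i : M → U) (p : GType L U α) : Prop :=
  ∀ (k : ℕ) (φ : L.Formula (α ⊕ Fin k)) (b b' : Fin k → U),
    (∀ ψ : L.Formula (Fin k ⊕ M), ψ.Realize (Sum.elim b i) ↔ ψ.Realize (Sum.elim b' i)) →
    (φ.relabel (Sum.map id b) ∈ p.carrier ↔ φ.relabel (Sum.map id b') ∈ p.carrier)

/-- The type `r` over `U` is a coheir of the type `q` over `M`: it extends `q` and is finitely
satisfiable in `M`. -/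
def IsCoheir {β : Type} (i : M → U) (q : GType L M β) (r : GType L U β) : Prop :=
  (∀ φ ∈ q.carrier, φ.relabel (Sum.map id i) ∈ r.carrier) ∧
    ∀ φ ∈ r.carrier, ∃ m : β → M, φ.Realize (Sum.elim (i ∘ m) id)

/-- The formula `φ(x, y; u)` is in the product `p_x ⊗ r_y` of two `M`-invariant types: for some
(equivalently, every) realization `b` in `U` of the restriction of `r` to `M` and `u`, the formula
`φ(x, b; u)` is in `p`. -/
def TensorMem {α β : Type} (i : M → U) (p : GType L U α) (r : GType L U β) {k : ℕ}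
    (φ : L.Formula ((α ⊕ β) ⊕ Fin k)) (u : Fin k → U) : Prop :=
  ∃ b : β → U, RealizesOver r (Set.range i ∪ Set.range u) b ∧
    φ.relabel (Sum.elim (Sum.elim Sum.inl (fun j => Sum.inr (b j))) (fun j => Sum.inr (u j))) ∈
      p.carrier

/-- The types `p` and `r` commute over `M`: `p_x ⊗ r_y = r_y ⊗ p_x`. -/
def Commutes {α β : Type} (i : M → U) (p : GType L U α) (r : GType L U β) : Prop :=
  ∀ (k : ℕ) (φ : L.Formula ((α ⊕ β) ⊕ Fin k)) (u : Fin k → U),
    TensorMem i p r φ u ↔ TensorMem i r p (φ.relabel (Sum.map Sum.swap id)) u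

end definitions

/-! ### Generalities on types -/

section general

variable {L : FirstOrder.Language.{0, 0}} {M U : Type} [L.Structure M] [L.Structure U]

theorem GType.not_mem {α : Type} (p : GType L U α) {φ : L.Formula (α ⊕ U)} :
    φ.not ∈ p.carrier ↔ φ ∉ p.carrier := by
  classical
  constructor
  · intro h h'
    obtain ⟨a, ha⟩ := p.finsat {φ, φ.not} (by simp [h, h'])
    have h1 := ha φ (by simp)
    have h2 := ha φ.not (by simp)
    rw [Formula.realize_not] at h2
    exact h2 h1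
  · intro h
    exact (p.complete φ).resolve_left h

/-- Closure of a type under consequences. -/
theorem GType.mem_of_imp {α : Type} (p : GType L U α) {φ ψ : L.Formula (α ⊕ U)}
    (h : φ ∈ p.carrier) (himp : ∀ a : α → U, φ.Realize (Sum.elim a id) →
      ψ.Realize (Sum.elim a id)) : ψ ∈ p.carrier := by
  classical
  by_contra hψ
  obtain ⟨a, ha⟩ := p.finsat {φ, ψ.not} (by simp [h, p.not_mem.2 hψ])
  have h1 := ha φ (by simp)
  have h2 := ha ψ.not (by simp)
  rw [Formula.realize_not] at h2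
  exact h2 (himp a h1)

theorem GType.mem_inf {α : Type} (p : GType L U α) {φ ψ : L.Formula (α ⊕ U)}
    (h : φ ∈ p.carrier) (h' : ψ ∈ p.carrier) : φ ⊓ ψ ∈ p.carrier := by
  classical
  by_contra hψ
  obtain ⟨a, ha⟩ := p.finsat {φ, ψ, (φ ⊓ ψ).not} (by simp [h, h', p.not_mem.2 hψ])
  have h1 := ha φ (by simp)
  have h2 := ha ψ (by simp)
  have h3 := ha (φ ⊓ ψ).not (by simp)
  rw [Formula.realize_not, Formula.realize_inf] at h3
  exact h3 ⟨h1, h2⟩

theorem RealizesOver.iff {α : Type} {p : GType L U α} {B : Set U} {a : α → U}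
    (h : RealizesOver p B a) (φ : L.Formula (α ⊕ B)) :
    φ.relabel (Sum.map id Subtype.val) ∈ p.carrier ↔ φ.Realize (Sum.elim a Subtype.val) := by
  refine ⟨h φ, fun h1 => ?_⟩
  by_contra h2
  have h3 : φ.not.relabel (Sum.map id Subtype.val) ∈ p.carrier := p.not_mem.2 h2
  have h4 := h _ h3
  rw [Formula.realize_not] at h4
  exact h4 h1

theorem realize_map {α B : Type} (f : B → U) (φ : L.Formula (α ⊕ B)) (a : α → U) :
    (φ.relabel (Sum.map id f)).Realize (Sum.elim a id) ↔ φ.Realize (Sum.elim a f) := by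
  rw [Formula.realize_relabel, Sum.elim_comp_map, Function.comp_id, Function.id_comp]

theorem relabel_relabel {α β γ : Type} (f : α → β) (g : β → γ) (φ : L.Formula α)
    (v : γ → U) : ((φ.relabel f).relabel g).Realize v ↔ (φ.relabel (g ∘ f)).Realize v := by
  rw [Formula.realize_relabel, Formula.realize_relabel, Formula.realize_relabel]
  rfl

/-- Membership only depends on the evaluation. -/
theorem GType.mem_congr {α : Type} (p : GType L U α) {φ ψ : L.Formula (α ⊕ U)}
    (h : ∀ a : α → U, φ.Realize (Sum.elim a id) ↔ ψ.Realize (Sum.elim a id)) :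
    φ ∈ p.carrier ↔ ψ ∈ p.carrier :=
  ⟨fun h1 => p.mem_of_imp h1 fun a => (h a).1, fun h1 => p.mem_of_imp h1 fun a => (h a).2⟩

theorem RealizesOver.mono {α : Type} {p : GType L U α} {B C : Set U} {a : α → U}
    (h : RealizesOver p C a) (hBC : B ⊆ C) : RealizesOver p B a := by
  intro φ hφ
  have h1 := (h.iff (φ.relabel (Sum.map id (Set.inclusion hBC)))).1 (by
    refine (p.mem_congr fun a => ?_).1 hφ
    rw [realize_map, realize_map, Formula.realize_relabel, Sum.elim_comp_map]
    rfl)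
  rw [Formula.realize_relabel, Sum.elim_comp_map] at h1
  exact h1

/-- A realization over a set decides formulas with parameters given by a tuple in the set. -/
theorem RealizesOver.tuple {α γ : Type} {p : GType L U α} {B : Set U} {a : α → U}
    (h : RealizesOver p B a) {u : γ → U} (hu : ∀ j, u j ∈ B) (φ : L.Formula (α ⊕ γ)) :
    φ.relabel (Sum.map id u) ∈ p.carrier ↔ φ.Realize (Sum.elim a u) := by
  have h1 := h.iff (φ.relabel (Sum.map id (fun j => (⟨u j, hu j⟩ : B))))
  rw [Formula.realize_relabel, Sum.elim_comp_map] at h1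
  refine Iff.trans (p.mem_congr fun a => ?_) h1
  rw [realize_map, realize_map, Formula.realize_relabel, Sum.elim_comp_map]
  rfl

theorem exists_realizes {n : ℕ} (hU : IsAleph1Saturated L U) (p : GType L U (Fin n)) {B : Set U}
    (hB : B.Countable) : ∃ a, RealizesOver p B a := by
  classical
  have key : ∀ s : Finset (L.Formula (Fin n ⊕ B)),
      (∀ φ ∈ s, φ ∈ {φ : L.Formula (Fin n ⊕ B) |
        φ.relabel (Sum.map id Subtype.val) ∈ p.carrier}) →
      ∃ a : Fin n → U, ∀ φ ∈ s, φ.Realize (Sum.elim a Subtype.val) := by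
    intro s hs
    obtain ⟨a, ha⟩ := p.finsat (s.image (fun φ => φ.relabel (Sum.map id Subtype.val))) (by
      intro φ hφ
      obtain ⟨ψ, hψ, rfl⟩ := Finset.mem_image.1 hφ
      exact hs ψ hψ)
    refine ⟨a, fun φ hφ => ?_⟩
    have h1 := ha _ (Finset.mem_image_of_mem _ hφ)
    rwa [realize_map] at h1
  obtain ⟨a, ha⟩ := hU B hB n _ key
  exact ⟨a, ha⟩

/-- Finitely satisfiable in `M`. -/
def FS {β : Type} (i : M → U) (r : GType L U β) : Prop :=
  ∀ φ ∈ r.carrier, ∃ m : β → M, φ.Realize (Sum.elim (i ∘ m) id)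

/-- Invariance of types finitely satisfiable in `M`, in the form needed below. -/
theorem FS.inv {β γ : Type} {i : M → U} {r : GType L U β} (hr : FS i r)
    {d d' : γ → U} (hd : ∀ ψ : L.Formula (γ ⊕ M), ψ.Realize (Sum.elim d i) ↔
      ψ.Realize (Sum.elim d' i)) (φ : L.Formula (β ⊕ γ)) :
    φ.relabel (Sum.map id d) ∈ r.carrier ↔ φ.relabel (Sum.map id d') ∈ r.carrier := by
  have main : ∀ (d d' : γ → U), (∀ ψ : L.Formula (γ ⊕ M), ψ.Realize (Sum.elim d i) ↔
      ψ.Realize (Sum.elim d' i)) → φ.relabel (Sum.map id d) ∈ r.carrier →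
      φ.relabel (Sum.map id d') ∈ r.carrier := by
    intro d d' hd h
    by_contra h'
    obtain ⟨m, hm⟩ := hr _ (r.mem_inf h (r.not_mem.2 h'))
    rw [Formula.realize_inf, Formula.realize_not, realize_map, realize_map] at hm
    have h1 := hd (φ.relabel (Sum.elim (fun j => Sum.inr (m j)) Sum.inl))
    rw [Formula.realize_relabel, Formula.realize_relabel] at h1
    have e : ∀ w : γ → U, Sum.elim w i ∘ Sum.elim (fun j => Sum.inr (m j)) Sum.inl =
        Sum.elim (i ∘ m) w := by
      intro w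
      funext x
      rcases x with x | x <;> rfl
    rw [e, e] at h1
    exact hm.2 (h1.1 hm.1)
  exact ⟨main d d' hd, main d' d fun ψ => (hd ψ).symm⟩

theorem FS.isInvariant {β : Type} {i : M → U} {r : GType L U β} (hr : FS i r) :
    IsInvariant i r := fun _ φ _ _ hb => hr.inv hb φ

/-- The type of an ultrafilter on tuples of `M`. -/
def ofUltra {β : Type} (F : Ultrafilter (β → M)) (i : M → U) : GType L U β where
  carrier := {φ | ∀ᶠ m in (F : Filter (β → M)), φ.Realize (Sum.elim (i ∘ m) id)}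
  complete := by
    intro φ
    rcases F.em (fun m => φ.Realize (Sum.elim (i ∘ m) id)) with h | h
    · exact Or.inl h
    · refine Or.inr (h.mono fun m hm => ?_)
      rw [Formula.realize_not]
      exact hm
  finsat := by
    intro s hs
    have h : ∀ᶠ m in (F : Filter (β → M)), ∀ φ ∈ s, φ.Realize (Sum.elim (i ∘ m) id) := by
      rw [Filter.eventually_all_finset]
      exact hs
    obtain ⟨m, hm⟩ := h.exists
    exact ⟨i ∘ m, hm⟩

theorem mem_ofUltra {β : Type} {F : Ultrafilter (β → M)} {i : M → U} {φ : L.Formula (β ⊕ U)} :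
    φ ∈ (ofUltra F i).carrier ↔ ∀ᶠ m in (F : Filter (β → M)), φ.Realize (Sum.elim (i ∘ m) id) :=
  Iff.rfl

theorem fs_ofUltra {β : Type} (F : Ultrafilter (β → M)) (i : M → U) :
    FS (L := L) i (ofUltra F i) := by
  intro φ hφ
  exact (mem_ofUltra.1 hφ).exists

end general

/-! ### The theory of two levels -/

open Pool.Agent.W5h80.TL
open Pool.Agent.W5h80.TL (Lg)

section special

variable {U : Type} [Lg.Structure U] (i : Pool.Agent.W5h80.TL.Mod ↪ₑ[Lg] U)

/-- The filter of left neighbourhoods of a real number in the rationals. -/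
def leftF (σ : ℝ) : Filter ℚ := Filter.comap (fun q : ℚ => (q : ℝ)) (nhdsWithin σ (Set.Iio σ))

instance (σ : ℝ) : (leftF σ).NeBot := by
  unfold leftF
  rw [Filter.comap_neBot_iff]
  intro t ht
  obtain ⟨l, hl, hlt⟩ := (mem_nhdsLT_iff_exists_Ioo_subset).1 ht
  obtain ⟨q, hq1, hq2⟩ := exists_rat_btwn (show l < σ from hl)
  exact ⟨q, hlt ⟨hq1, hq2⟩⟩

theorem leftF_lt (σ : ℝ) : ∀ᶠ q : ℚ in leftF σ, (q : ℝ) < σ := by
  have h : ∀ᶠ x in nhdsWithin σ (Set.Iio σ), x < σ := self_mem_nhdsWithin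
  exact h.comap (fun q : ℚ => (q : ℝ))

theorem leftF_gt (σ : ℝ) {c : ℚ} (hc : (c : ℝ) < σ) : ∀ᶠ q in leftF σ, c < q := by
  have h : ∀ᶠ x in nhdsWithin σ (Set.Iio σ), (c : ℝ) < x :=
    Filter.Eventually.filter_mono nhdsWithin_le_nhds (lt_mem_nhds hc)
  have h2 := h.comap (fun q : ℚ => (q : ℝ))
  exact h2.mono fun q hq => by exact_mod_cast hq

/-- The type of elements of level 0 just to the left of the cut given by a real number. -/
noncomputable def pT (σ : ℝ) : GType Lg U (Fin 1) :=
  ofUltra ((Ultrafilter.of (leftF σ)).map fun q _ => Pool.Agent.W5h80.TL.Mod.c q) i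

/-- The type in the levels 2 and 1 with hidden coordinate at the given real number. -/
noncomputable def rT (σ : ℝ) : GType Lg U (Fin 2) :=
  ofUltra ((Ultrafilter.of (Filter.atTop ×ˢ leftF σ)).map zz) i

theorem mem_pT {σ : ℝ} {φ : Lg.Formula (Fin 1 ⊕ U)} : φ ∈ (pT i σ).carrier ↔
    ∀ᶠ q in (Ultrafilter.of (leftF σ) : Filter ℚ),
      φ.Realize (Sum.elim (fun _ => i (Pool.Agent.W5h80.TL.Mod.c q)) id) := Iff.rfl

theorem mem_rT {σ : ℝ} {φ : Lg.Formula (Fin 2 ⊕ U)} : φ ∈ (rT i σ).carrier ↔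
    ∀ᶠ p in ((Ultrafilter.of (Filter.atTop ×ˢ leftF σ) : Ultrafilter (ℕ × ℚ)) : Filter (ℕ × ℚ)),
      φ.Realize (Sum.elim (i ∘ zz p) id) := Iff.rfl

theorem of_left {σ : ℝ} {P : ℚ → Prop} (h : ∀ᶠ q in leftF σ, P q) :
    ∀ᶠ q in (Ultrafilter.of (leftF σ) : Filter ℚ), P q := Ultrafilter.of_le (leftF σ) h

theorem of_prod {σ : ℝ} {P : ℕ × ℚ → Prop}
    (h : ∀ᶠ q in ((Filter.atTop : Filter ℕ) ×ˢ leftF σ), P q) :
    ∀ᶠ q in ((Ultrafilter.of ((Filter.atTop : Filter ℕ) ×ˢ leftF σ) : Ultrafilter (ℕ × ℚ)) :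
      Filter (ℕ × ℚ)), P q :=
  Ultrafilter.of_le (Filter.atTop ×ˢ leftF σ) h

/-- The structure with levels on the saturated model. -/
@[reducible] noncomputable def tlU : TL U := tlOfElem i

theorem map_lt (a b : Pool.Agent.W5h80.TL.Mod) :
    letI := tlU i
    i a < i b ↔ a < b := by
  letI := tlU i
  have h := i.map_rel (Rl.lt : Lg.Relations 2) ![a, b]
  have e : (i ∘ ![a, b]) = ![i a, i b] := by
    funext j
    fin_cases j <;> rfl
  rw [e] at h
  exact (TL.lt_iff _ _).symm.trans (h.trans (TL.lt_iff _ _))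

theorem map_lev (a : Pool.Agent.W5h80.TL.Mod) :
    letI := tlU i
    TL.lev (i a) = TL.lev a := by
  letI := tlU i
  have e : (i ∘ ![a]) = ![i a] := by
    funext j
    fin_cases j; rfl
  have h1 := i.map_rel (Rl.p0 : Lg.Relations 1) ![a]
  have h2 := i.map_rel (Rl.p1 : Lg.Relations 1) ![a]
  rw [e] at h1 h2
  have h5 : TL.lev (i a) = 0 ↔ TL.lev a = 0 :=
    (TL.p0_iff _).symm.trans (h1.trans (TL.p0_iff _))
  have h6 : TL.lev (i a) = 1 ↔ TL.lev a = 1 :=
    (TL.p1_iff _).symm.trans (h2.trans (TL.p1_iff _))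
  have h3 := TL.lev_le a
  have h4 := TL.lev_le (i a)
  omega

theorem map_dd (a b : Pool.Agent.W5h80.TL.Mod) : i (dd a b) = dd (i a) (i b) := by
  have h := i.map_fun (Fn.d : Lg.Functions 2) ![a, b]
  have e : (i ∘ ![a, b]) = ![i a, i b] := by
    funext j
    fin_cases j <;> rfl
  rw [e] at h
  exact h

/-! ### Realizations of the types in the cuts -/

/-- Comparison with a parameter. -/
def fCmp : Lg.Formula (Fin 1 ⊕ Unit) :=
  (fR (Term.var (Sum.inl (Sum.inl 0))) (Term.var (Sum.inl (Sum.inr ()))) :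
    Lg.BoundedFormula (Fin 1 ⊕ Unit) 0)

/-- Equality with a parameter. -/
def fEq : Lg.Formula (Fin 1 ⊕ Unit) :=
  (Term.bdEqual (Term.var (Sum.inl (Sum.inl 0))) (Term.var (Sum.inl (Sum.inr ()))) :
    Lg.BoundedFormula (Fin 1 ⊕ Unit) 0)

/-- Level 0. -/
def fL0 : Lg.Formula (Fin 1 ⊕ Unit) :=
  (f0 (Term.var (Sum.inl (Sum.inl 0))) : Lg.BoundedFormula (Fin 1 ⊕ Unit) 0)

theorem realize_fCmp {K : Type} [Lg.Structure K] (w : Fin 1 ⊕ Unit → K) :
    fCmp.Realize w ↔ rr (w (Sum.inl 0)) (w (Sum.inr ())) := by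
  rw [fCmp, Formula.Realize, realize_fR]
  rfl

theorem realize_fEq {K : Type} [Lg.Structure K] (w : Fin 1 ⊕ Unit → K) :
    fEq.Realize w ↔ (w (Sum.inl 0)) = (w (Sum.inr ())) := by
  rw [fEq, Formula.Realize, BoundedFormula.realize_bdEqual]
  rfl

theorem realize_fL0 {K : Type} [Lg.Structure K] (w : Fin 1 ⊕ Unit → K) :
    fL0.Realize w ↔ q0 (w (Sum.inl 0)) := by
  rw [fL0, Formula.Realize, realize_f0]
  rfl

/-- The constants of level 0. -/
noncomputable def cc (q : ℚ) : U := i (Pool.Agent.W5h80.TL.Mod.c q)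

theorem cc_lt (q q' : ℚ) :
    letI := tlU i
    cc i q < cc i q' ↔ q < q' := by
  letI := tlU i
  exact (map_lt i _ _).trans Pool.Agent.W5h80.TL.Mod.c_lt_c

theorem pT_spec {σ : ℝ} {B : Set U} {a : Fin 1 → U} (h : RealizesOver (pT i σ) B a) {e : U}
    (he : e ∈ B) :
    letI := tlU i
    (a 0 < e ↔ ∀ q : ℚ, (q : ℝ) < σ → cc i q < e) ∧ a 0 ≠ e := by
  letI := tlU i
  have h1 := h.tuple (u := fun _ : Unit => e) (fun _ => he) fCmp
  have h2 := h.tuple (u := fun _ : Unit => e) (fun _ => he) fEq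
  rw [mem_pT, realize_fCmp] at h1
  rw [mem_pT, realize_fEq] at h2
  simp only [realize_map, realize_fCmp, Sum.elim_inl, Sum.elim_inr, rr_iff] at h1
  simp only [realize_map, realize_fEq, Sum.elim_inl, Sum.elim_inr] at h2
  constructor
  · rw [← h1]
    constructor
    · intro h3 q hq
      by_contra h4
      rw [not_lt] at h4
      have h5 := of_left (leftF_gt σ hq)
      obtain ⟨q', h6, h7⟩ := (h3.and h5).exists
      have h8 : cc i q < cc i q' := (cc_lt i q q').2 h7
      exact absurd h6 (not_lt.2 (h4.trans h8.le))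
    · intro h3
      exact (of_left (leftF_lt σ)).mono fun q hq => h3 q hq
  · intro h3
    rw [← h2] at h3
    obtain ⟨q, h4, h5⟩ := (h3.and (of_left (leftF_lt σ))).exists
    obtain ⟨q', h6, h7⟩ := (h3.and (of_left (leftF_gt σ h5))).exists
    have h8 : cc i q < cc i q' := (cc_lt i q q').2 h7
    rw [cc, h4] at h8
    rw [cc, h6] at h8
    exact lt_irrefl _ h8

theorem pT_lev {σ : ℝ} {B : Set U} {a : Fin 1 → U} (h : RealizesOver (pT i σ) B a)
    (hne : B.Nonempty) :
    letI := tlU i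
    TL.lev (a 0) = 0 := by
  letI := tlU i
  obtain ⟨e, he⟩ := hne
  have h1 := h.tuple (u := fun _ : Unit => e) (fun _ => he) fL0
  rw [mem_pT, realize_fL0] at h1
  simp only [realize_map, realize_fL0, Sum.elim_inl, q0_iff] at h1
  rw [← h1]
  refine Filter.Eventually.of_forall fun q => ?_
  rw [map_lev]
  rfl

theorem pT_gt {σ : ℝ} {B : Set U} {a : Fin 1 → U} (h : RealizesOver (pT i σ) B a)
    (hB : Set.range i ⊆ B) {q : ℚ} (hq : (q : ℝ) < σ) :
    letI := tlU i
    cc i q < a 0 := by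
  letI := tlU i
  obtain ⟨h1, h2⟩ := pT_spec i h (hB ⟨_, rfl⟩ : cc i q ∈ B)
  rcases lt_trichotomy (a 0) (cc i q) with h3 | h3 | h3
  · exact absurd (h1.1 h3 q hq) (lt_irrefl _)
  · exact absurd h3 h2
  · exact h3

/-- The criterion for commuting. -/
theorem commute_of (hU : IsAleph1Saturated Lg U) (σ : ℝ) {m : ℕ} (r : GType Lg U (Fin m))
    (hr : FS i r)
    (H : letI := tlU i
      ∀ (k : ℕ) (u : Fin k → U), ∃ (a : Fin 1 → U) (b : Fin m → U),
      RealizesOver (pT i σ) (Set.range i ∪ Set.range u) a ∧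
      RealizesOver r (insert (a 0) (Set.range i ∪ Set.range u)) b ∧
      ∀ t : Lg.Term (Fin m ⊕ Fin k), TL.lev (t.realize (Sum.elim b u)) = 0 →
        (∀ q : ℚ, (q : ℝ) < σ → cc i q < t.realize (Sum.elim b u)) →
        a 0 < t.realize (Sum.elim b u)) : Commutes i (pT i σ) r := by
  letI := tlU i
  classical
  have hMc : (Set.range i).Countable := by
    have := Pool.Agent.W5h80.TL.Mod.countable
    exact Set.countable_range _
  intro k φ u
  obtain ⟨a, b, ha, hb, hab⟩ := H k u
  have hu : ∀ j, u j ∈ Set.range i ∪ Set.range u := fun j => Or.inr ⟨j, rfl⟩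
  have hi : ∀ x, i x ∈ Set.range i ∪ Set.range u := fun x => Or.inl ⟨x, rfl⟩
  have hb' : RealizesOver r (Set.range i ∪ Set.range u) b := hb.mono (Set.subset_insert _ _)
  have hu' : ∀ j, u j ∈ insert (a 0) (Set.range i ∪ Set.range u) := fun j => Or.inr (hu j)
  have hi' : ∀ x, i x ∈ insert (a 0) (Set.range i ∪ Set.range u) := fun x => Or.inr (hi x)
  have ha0 : ∀ j : Fin 1, a j ∈ insert (a 0) (Set.range i ∪ Set.range u) := by
    intro j
    have : j = 0 := Subsingleton.elim _ _
    rw [this]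
    exact Set.mem_insert _ _
  have hlev : TL.lev (a 0) = 0 := pT_lev i ha ⟨_, hi (Pool.Agent.W5h80.TL.Mod.c 0)⟩
  -- the two reorderings of the formula
  let χ₁ : Lg.Formula (Fin 1 ⊕ (Fin m ⊕ Fin k)) := φ.relabel
    (Sum.elim (Sum.elim Sum.inl (fun y => Sum.inr (Sum.inl y))) (fun j => Sum.inr (Sum.inr j)))
  let χ₂ : Lg.Formula (Fin m ⊕ (Fin 1 ⊕ Fin k)) := φ.relabel
    (Sum.elim (Sum.elim (fun x => Sum.inr (Sum.inl x)) Sum.inl) (fun j => Sum.inr (Sum.inr j)))
  have hχ₁ : ∀ (x : Fin 1 → U) (y : Fin m → U), χ₁.Realize (Sum.elim x (Sum.elim y u)) ↔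
      φ.Realize (Sum.elim (Sum.elim x y) u) := by
    intro x y
    simp only [χ₁]
    rw [Formula.realize_relabel]
    have : Sum.elim x (Sum.elim y u) ∘ Sum.elim (Sum.elim Sum.inl fun y => Sum.inr (Sum.inl y))
        (fun j => Sum.inr (Sum.inr j)) = Sum.elim (Sum.elim x y) u := by
      funext z
      rcases z with (z | z) | z <;> rfl
    rw [this]
  have hχ₂ : ∀ (x : Fin 1 → U) (y : Fin m → U), χ₂.Realize (Sum.elim y (Sum.elim x u)) ↔
      φ.Realize (Sum.elim (Sum.elim x y) u) := by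
    intro x y
    simp only [χ₂]
    rw [Formula.realize_relabel]
    have : Sum.elim y (Sum.elim x u) ∘ Sum.elim (Sum.elim (fun x => Sum.inr (Sum.inl x)) Sum.inl)
        (fun j => Sum.inr (Sum.inr j)) = Sum.elim (Sum.elim x y) u := by
      funext z
      rcases z with (z | z) | z <;> rfl
    rw [this]
  -- first product
  have key1 : TensorMem i (pT i σ) r φ u ↔ φ.Realize (Sum.elim (Sum.elim a b) u) := by
    have hmem : ∀ b₀ : Fin m → U, RealizesOver r (Set.range i ∪ Set.range u) b₀ →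
        (φ.relabel (Sum.elim (Sum.elim Sum.inl (fun j => Sum.inr (b₀ j)))
          (fun j => Sum.inr (u j))) ∈ (pT i σ).carrier ↔
          φ.Realize (Sum.elim (Sum.elim a b) u)) := by
      intro b₀ hb₀
      let C : Set U := clT (Set.range i ∪ Set.range u ∪ Set.range b₀)
      have hC : C.Countable := countable_clT ((hMc.union (Set.countable_range _)).union
        (Set.countable_range _))
      obtain ⟨a', ha'⟩ := exists_realizes hU (pT i σ) hC
      have hCi : ∀ x, i x ∈ C := fun x => subset_clT _ (Or.inl (Or.inl ⟨x, rfl⟩))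
      have hCu : ∀ x, u x ∈ C := fun x => subset_clT _ (Or.inl (Or.inr ⟨x, rfl⟩))
      have hCb : ∀ x, b₀ x ∈ C := fun x => subset_clT _ (Or.inr ⟨x, rfl⟩)
      have e1 : φ.relabel (Sum.elim (Sum.elim Sum.inl (fun j => Sum.inr (b₀ j)))
          (fun j => Sum.inr (u j))) ∈ (pT i σ).carrier ↔
          χ₁.relabel (Sum.map id (Sum.elim b₀ u)) ∈ (pT i σ).carrier := by
        refine (pT i σ).mem_congr fun x => ?_
        rw [realize_map, hχ₁, Formula.realize_relabel]
        have : Sum.elim x id ∘ Sum.elim (Sum.elim Sum.inl (fun j => Sum.inr (b₀ j)))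
            (fun j => Sum.inr (u j)) = Sum.elim (Sum.elim x b₀) u := by
          funext z
          rcases z with (z | z) | z <;> rfl
        rw [this]
      have e2 : χ₁.relabel (Sum.map id (Sum.elim b₀ u)) ∈ (pT i σ).carrier ↔
          φ.Realize (Sum.elim (Sum.elim a' b₀) u) := by
        rw [ha'.tuple (u := Sum.elim b₀ u) (by
          rintro (j | j)
          · exact hCb j
          · exact hCu j) χ₁, hχ₁]
      rw [e1, e2]
      -- the partial isomorphism
      have htype : ∀ ψ : Lg.Formula (Fin m ⊕ Fin k), ψ.Realize (Sum.elim b₀ u) ↔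
          ψ.Realize (Sum.elim b u) := by
        intro ψ
        rw [← hb₀.tuple hu ψ, ← hb'.tuple hu ψ]
      obtain ⟨hG, hGf⟩ := pi_of_type htype
      -- the same with a constant
      have hconst : ∀ (t : Lg.Term (Fin m ⊕ Fin k)) (q : ℚ),
          cc i q < t.realize (Sum.elim b₀ u) ↔ cc i q < t.realize (Sum.elim b u) := by
        intro t q
        let ψ : Lg.Formula (Fin m ⊕ (Fin k ⊕ Unit)) :=
          (fR (Term.var (Sum.inl (Sum.inr (Sum.inr ()))))
            (Term.relabel (fun z => Sum.inl (Sum.elim Sum.inl (fun j => Sum.inr (Sum.inl j)) z)) t) :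
            Lg.BoundedFormula (Fin m ⊕ (Fin k ⊕ Unit)) 0)
        have hψ : ∀ y : Fin m → U, ψ.Realize (Sum.elim y (Sum.elim u (fun _ => cc i q))) ↔
            cc i q < t.realize (Sum.elim y u) := by
          intro y
          simp only [ψ]
          rw [Formula.Realize, realize_fR, Term.realize_relabel, rr_iff]
          have : (Sum.elim (Sum.elim y (Sum.elim u fun _ : Unit => cc i q)) (default : Fin 0 → U) ∘
              fun z => Sum.inl (Sum.elim Sum.inl (fun j => Sum.inr (Sum.inl j)) z)) =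
              Sum.elim y u := by
            funext z
            rcases z with z | z <;> rfl
          rw [this]
          rfl
        have hmem : ∀ z, Sum.elim u (fun _ : Unit => cc i q) z ∈ Set.range i ∪ Set.range u := by
          rintro (z | z)
          · exact hu z
          · exact hi _
        rw [← hψ, ← hψ, ← hb₀.tuple hmem ψ, ← hb'.tuple hmem ψ]
      have hadd : PI (insert (a' 0, a 0) {p : U × U | ∃ t : Lg.Term (Fin m ⊕ Fin k),
          t.realize (Sum.elim b₀ u) = p.1 ∧ t.realize (Sum.elim b u) = p.2}) := by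
        have hlev' : TL.lev (a' 0) = 0 := pT_lev i ha' ⟨_, hCi (Pool.Agent.W5h80.TL.Mod.c 0)⟩
        refine hG.add (by rw [hlev', hlev]) ?_
        rintro ⟨e, e'⟩ ⟨t, rfl, rfl⟩ hl
        have hl' : TL.lev (t.realize (Sum.elim b u)) = 0 := by
          have := hG.lev (p := (t.realize (Sum.elim b₀ u), t.realize (Sum.elim b u))) ⟨t, rfl, rfl⟩
          simp only at this hl
          omega
        have heC : t.realize (Sum.elim b₀ u) ∈ C := term_mem (closed_clT _) (by
          rintro (j | j)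
          · exact hCb j
          · exact hCu j) t
        obtain ⟨s1, s2⟩ := pT_spec i ha' heC
        have s3 : a' 0 < t.realize (Sum.elim b₀ u) ↔ a 0 < t.realize (Sum.elim b u) := by
          rw [s1]
          constructor
          · intro h
            exact hab t hl' fun q hq => (hconst t q).1 (h q hq)
          · intro h q hq
            exact (hconst t q).2 ((pT_gt i ha (fun _ hx => Or.inl hx) hq).trans h)
        have s4 : a 0 ≠ t.realize (Sum.elim b u) := by
          intro h
          refine absurd (hab t hl' fun q hq => ?_) (by rw [h]; exact lt_irrefl _)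
          rw [← h]
          exact pT_gt i ha (fun _ hx => Or.inl hx) hq
        refine ⟨s3, ?_, fun h => absurd hlev' h⟩
        simp only
        constructor
        · intro h
          rcases lt_trichotomy (t.realize (Sum.elim b u)) (a 0) with h1 | h1 | h1
          · exact h1
          · exact absurd h1.symm s4
          · exact absurd (s3.2 h1) h.asymm
        · intro h
          rcases lt_trichotomy (t.realize (Sum.elim b₀ u)) (a' 0) with h1 | h1 | h1
          · exact h1
          · exact absurd h1.symm s2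
          · exact absurd (s3.1 h1) h.asymm
      refine hadd.realize φ (hGf.insert _) ?_
      rintro ((j | j) | j)
      · have : j = 0 := Subsingleton.elim _ _
        subst this
        exact Set.mem_insert _ _
      · exact Set.mem_insert_of_mem _ ⟨Term.var (Sum.inl j), rfl, rfl⟩
      · exact Set.mem_insert_of_mem _ ⟨Term.var (Sum.inr j), rfl, rfl⟩
    constructor
    · rintro ⟨b₀, hb₀, h⟩
      exact (hmem b₀ hb₀).1 h
    · intro h
      exact ⟨b, hb', (hmem b hb').2 h⟩
  -- second product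
  have key2 : TensorMem i r (pT i σ) (φ.relabel (Sum.map Sum.swap id)) u ↔
      φ.Realize (Sum.elim (Sum.elim a b) u) := by
    have e1 : ∀ a' : Fin 1 → U, (φ.relabel (Sum.map Sum.swap id)).relabel
        (Sum.elim (Sum.elim Sum.inl (fun j => Sum.inr (a' j))) (fun j => Sum.inr (u j))) ∈
        r.carrier ↔ χ₂.relabel (Sum.map id (Sum.elim a' u)) ∈ r.carrier := by
      intro a'
      refine r.mem_congr fun y => ?_
      rw [realize_map, hχ₂, Formula.realize_relabel, Formula.realize_relabel]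
      have : (Sum.elim y id ∘ Sum.elim (Sum.elim Sum.inl fun j => Sum.inr (a' j))
          (fun j => Sum.inr (u j))) ∘ Sum.map Sum.swap id = Sum.elim (Sum.elim a' y) u := by
        funext z
        rcases z with (z | z) | z <;> rfl
      rw [this]
    have e2 : χ₂.relabel (Sum.map id (Sum.elim a u)) ∈ r.carrier ↔
        φ.Realize (Sum.elim (Sum.elim a b) u) := by
      rw [hb.tuple (u := Sum.elim a u) (by
        rintro (j | j)
        · exact ha0 j
        · exact hu' j) χ₂, hχ₂]
    constructor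
    · rintro ⟨a', ha', h⟩
      rw [e1] at h
      rw [← e2]
      refine (hr.inv ?_ χ₂).1 h
      intro ψ
      let ψ' : Lg.Formula (Fin 1 ⊕ (Fin k ⊕ Pool.Agent.W5h80.TL.Mod)) := ψ.relabel
        (Sum.elim (Sum.elim Sum.inl (fun j => Sum.inr (Sum.inl j))) (fun j => Sum.inr (Sum.inr j)))
      have hψ' : ∀ x : Fin 1 → U, ψ'.Realize (Sum.elim x (Sum.elim u i)) ↔
          ψ.Realize (Sum.elim (Sum.elim x u) i) := by
        intro x
        simp only [ψ']
        rw [Formula.realize_relabel]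
        have : Sum.elim x (Sum.elim u i) ∘ Sum.elim (Sum.elim Sum.inl fun j => Sum.inr (Sum.inl j))
            (fun j => Sum.inr (Sum.inr j)) = Sum.elim (Sum.elim x u) i := by
          funext z
          rcases z with (z | z) | z <;> rfl
        rw [this]
      have hmem : ∀ z, Sum.elim u i z ∈ Set.range i ∪ Set.range u := by
        rintro (z | z)
        · exact hu z
        · exact hi z
      rw [← hψ', ← hψ', ← ha'.tuple hmem ψ', ← ha.tuple hmem ψ']
    · intro h
      exact ⟨a, ha, (e1 a).2 (e2.2 h)⟩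
  rw [key1, key2]

/-- For a type finitely satisfiable in the model, all but finitely many of the types of the
cuts commute with it. -/
theorem finite_bad (hU : IsAleph1Saturated Lg U) {m : ℕ} (r : GType Lg U (Fin m))
    (hr : FS i r) : {σ : ℝ | ¬ Commutes i (pT i σ) r}.Finite := by
  letI := tlU i
  classical
  have hMc : (Set.range i).Countable := by
    have := Pool.Agent.W5h80.TL.Mod.countable
    exact Set.countable_range _
  by_contra hinf
  obtain ⟨T, hT, hcard⟩ := (Set.not_finite.1 hinf).exists_subset_card_eq (m + 1)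
  have hbad : ∀ σ : T, ∃ (k : ℕ) (u : Fin k → U), ∀ (a : Fin 1 → U) (b : Fin m → U),
      RealizesOver (pT i (σ : ℝ)) (Set.range i ∪ Set.range u) a →
      RealizesOver r (insert (a 0) (Set.range i ∪ Set.range u)) b →
      ∃ t : Lg.Term (Fin m ⊕ Fin k), TL.lev (t.realize (Sum.elim b u)) = 0 ∧
        (∀ q : ℚ, (q : ℝ) < σ → cc i q < t.realize (Sum.elim b u)) ∧
        ¬ a 0 < t.realize (Sum.elim b u) := by
    rintro ⟨σ, hσ⟩
    by_contra hcon
    apply hT hσ
    refine commute_of i hU σ r hr ?_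
    push Not at hcon
    exact hcon
  choose k u hku using hbad
  let B₀ : Set U := Set.range i ∪ ⋃ σ : T, Set.range (u σ)
  have hB₀ : B₀.Countable := hMc.union (Set.countable_iUnion fun σ => Set.countable_range _)
  have hB₁ : (clT B₀).Countable := countable_clT hB₀
  have hiB : Set.range i ⊆ clT B₀ := fun x hx => subset_clT _ (Or.inl hx)
  have huB : ∀ σ j, u σ j ∈ clT B₀ := fun σ j =>
    subset_clT _ (Or.inr (Set.mem_iUnion.2 ⟨σ, j, rfl⟩))
  have hsubB : ∀ σ, Set.range i ∪ Set.range (u σ) ⊆ clT B₀ := by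
    rintro σ x (hx | ⟨j, rfl⟩)
    · exact hiB hx
    · exact huB σ j
  have hex : ∀ σ : T, ∃ a, RealizesOver (pT i (σ : ℝ)) (clT B₀) a := fun σ =>
    exists_realizes hU _ hB₁
  choose a ha using hex
  obtain ⟨b, hb⟩ := exists_realizes hU r (B := clT B₀ ∪ Set.range (fun σ : T => a σ 0))
    (hB₁.union (Set.countable_range _))
  obtain ⟨B', h1, h2, h3, E, h4, h5⟩ := add_tuple m (clT B₀) (closed_clT _) b
  have hex2 : ∀ σ : T, ∃ e : U, e ∈ E ∧ (∀ q : ℚ, (q : ℝ) < σ → cc i q < e) ∧ ¬ a σ 0 < e := by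
    intro σ
    obtain ⟨t, ht1, ht2, ht3⟩ := hku σ (a σ) b ((ha σ).mono (hsubB σ)) (hb.mono (by
      rintro x (rfl | hx)
      · exact Or.inr ⟨σ, rfl⟩
      · exact Or.inl (hsubB σ hx)))
    refine ⟨_, ?_, ht2, ht3⟩
    have hB' : t.realize (Sum.elim b (u σ)) ∈ B' := term_mem h1 (by
      rintro (j | j)
      · exact h3 j
      · exact h2 (huB σ j)) t
    rcases h5 _ hB' ht1 with h | h
    · exact absurd ((pT_spec i (ha σ) h).1.2 ht2) ht3
    · exact h
  choose e he1 he2 he3 using hex2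
  have hinj : Function.Injective (fun σ : T => (⟨e σ, he1 σ⟩ : E)) := by
    have main : ∀ σ τ : T, (σ : ℝ) < τ → e σ ≠ e τ := by
      intro σ τ hlt heq
      obtain ⟨q, hq1, hq2⟩ := exists_rat_btwn hlt
      have h6 : cc i q < e τ := he2 τ q hq2
      have h7 : a σ 0 < cc i q := (pT_spec i (ha σ) (hiB ⟨_, rfl⟩)).1.2 (fun q' hq' =>
        (cc_lt i q' q).2 (by exact_mod_cast hq'.trans hq1))
      rw [← heq] at h6
      exact he3 σ (h7.trans h6)
    intro σ τ h
    have h' : e σ = e τ := congrArg Subtype.val h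
    rcases lt_trichotomy (σ : ℝ) τ with h6 | h6 | h6
    · exact absurd h' (main σ τ h6)
    · exact Subtype.ext h6
    · exact absurd h'.symm (main τ σ h6)
  have hle := Fintype.card_le_of_injective _ hinj
  rw [Fintype.card_coe, Fintype.card_coe, hcard] at hle
  omega

/-! ### The type over the model and its coheirs -/

/-- The type over the countable model. -/
noncomputable def qT : GType Lg Pool.Agent.W5h80.TL.Mod (Fin 2) :=
  ofUltra ((Ultrafilter.of ((Filter.atTop : Filter ℕ) ×ˢ leftF 0)).map zz) id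

theorem rT_coheir (σ : ℝ) : IsCoheir i qT (rT i σ) := by
  refine ⟨?_, fs_ofUltra _ _⟩
  intro φ hφ
  rw [mem_rT]
  obtain ⟨N0, hN0⟩ := zz_formula φ
  have h1 : ∀ᶠ p in ((Ultrafilter.of ((Filter.atTop : Filter ℕ) ×ˢ leftF 0) :
      Ultrafilter (ℕ × ℚ)) : Filter (ℕ × ℚ)), φ.Realize (Sum.elim (zz p) id) := hφ
  have hN : ∀ τ : ℝ, ∀ᶠ p in ((Ultrafilter.of ((Filter.atTop : Filter ℕ) ×ˢ leftF τ) :
      Ultrafilter (ℕ × ℚ)) : Filter (ℕ × ℚ)), N0 ≤ p.1 := fun τ =>
    of_prod ((Filter.eventually_ge_atTop N0).prod_inl _)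
  obtain ⟨p0, h2, h3⟩ := (h1.and (hN 0)).exists
  refine (hN σ).mono fun p hp => ?_
  have h4 : φ.Realize (Sum.elim (zz p) id) := (hN0 p0 p h3 hp).1 h2
  rw [realize_map]
  have h5 := (i.map_formula φ (Sum.elim (zz p) id)).2 h4
  have : i ∘ Sum.elim (zz p) id = Sum.elim (i ∘ zz p) i := by
    rw [Sum.comp_elim]
    rfl
  rwa [this] at h5

/-- The formula witnessing that the types do not commute: `x < d(d(y₀, u), y₁)`. -/
def fW : Lg.Formula ((Fin 1 ⊕ Fin 2) ⊕ Fin 1) :=
  (fR (Term.var (Sum.inl (Sum.inl (Sum.inl 0))))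
    (tD (tD (Term.var (Sum.inl (Sum.inl (Sum.inr 0)))) (Term.var (Sum.inl (Sum.inr 0))))
      (Term.var (Sum.inl (Sum.inl (Sum.inr 1))))) : Lg.BoundedFormula ((Fin 1 ⊕ Fin 2) ⊕ Fin 1) 0)

theorem realize_fW {K : Type} [Lg.Structure K] (w : (Fin 1 ⊕ Fin 2) ⊕ Fin 1 → K) :
    fW.Realize w ↔ rr (w (Sum.inl (Sum.inl 0)))
      (dd (dd (w (Sum.inl (Sum.inr 0))) (w (Sum.inr 0))) (w (Sum.inl (Sum.inr 1)))) := by
  rw [fW, Formula.Realize, realize_fR, realize_tD, realize_tD]
  rfl

/-- The formula `x < d(d(y₀, u), y₁)` in the variables `y` and the parameters `x`, `u`. -/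
def fW' : Lg.Formula (Fin 2 ⊕ (Unit ⊕ Unit)) :=
  (fR (Term.var (Sum.inl (Sum.inr (Sum.inl ()))))
    (tD (tD (Term.var (Sum.inl (Sum.inl 0))) (Term.var (Sum.inl (Sum.inr (Sum.inr ())))))
      (Term.var (Sum.inl (Sum.inl 1)))) : Lg.BoundedFormula (Fin 2 ⊕ (Unit ⊕ Unit)) 0)

theorem realize_fW' {K : Type} [Lg.Structure K] (w : Fin 2 ⊕ (Unit ⊕ Unit) → K) :
    fW'.Realize w ↔ rr (w (Sum.inr (Sum.inl ())))
      (dd (dd (w (Sum.inl 0)) (w (Sum.inr (Sum.inr ())))) (w (Sum.inl 1))) := by
  rw [fW', Formula.Realize, realize_fR, realize_tD, realize_tD]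
  rfl

/-- The pseudo-limit in the saturated model. -/
theorem exists_limit (hU : IsAleph1Saturated Lg U) : ∃ κ : U, ∀ n : ℕ,
    dd (i (Pool.Agent.W5h80.TL.Mod.v (kap n))) κ = i (Pool.Agent.W5h80.TL.Mod.g (gam n)) := by
  classical
  have hMc : (Set.range i).Countable := by
    have := Pool.Agent.W5h80.TL.Mod.countable
    exact Set.countable_range _
  let ki : ℕ → Set.range i := fun n => ⟨i (Pool.Agent.W5h80.TL.Mod.v (kap n)), _, rfl⟩
  let gi : ℕ → Set.range i := fun n => ⟨i (Pool.Agent.W5h80.TL.Mod.g (gam n)), _, rfl⟩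
  let θ : ℕ → Lg.Formula (Fin 1 ⊕ Set.range i) := fun n =>
    (Term.bdEqual (tD (Term.var (Sum.inl (Sum.inr (ki n)))) (Term.var (Sum.inl (Sum.inl 0))))
      (Term.var (Sum.inl (Sum.inr (gi n)))) : Lg.BoundedFormula (Fin 1 ⊕ Set.range i) 0)
  have hθ : ∀ (n : ℕ) (a : Fin 1 → U), (θ n).Realize (Sum.elim a Subtype.val) ↔
      dd (i (Pool.Agent.W5h80.TL.Mod.v (kap n))) (a 0) =
        i (Pool.Agent.W5h80.TL.Mod.g (gam n)) := by
    intro n a
    simp only [θ]
    rw [Formula.Realize, BoundedFormula.realize_bdEqual, realize_tD]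
    rfl
  obtain ⟨a, ha⟩ := hU (Set.range i) hMc 1 (Set.range θ) (by
    intro s hs
    -- indices of the formulas
    have hs' : ∀ φ : Lg.Formula (Fin 1 ⊕ Set.range i), ∃ n, φ ∈ s → φ = θ n := by
      intro φ
      by_cases h : φ ∈ s
      · obtain ⟨n, hn⟩ := hs φ h
        exact ⟨n, fun _ => hn.symm⟩
      · exact ⟨0, fun h' => absurd h' h⟩
    choose nn hnn using hs'
    let K : ℕ := s.sup nn + 1
    refine ⟨fun _ => i (Pool.Agent.W5h80.TL.Mod.v (kap K)), fun φ hφ => ?_⟩
    have hlt : nn φ < K := Nat.lt_succ_of_le (Finset.le_sup hφ)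
    rw [hnn φ hφ, hθ, ← map_dd, Pool.Agent.W5h80.TL.Mod.dd_eq,
      Pool.Agent.W5h80.TL.Mod.dist_vv (kap_ne hlt), fd_kap hlt])
  exact ⟨a 0, fun n => (hθ n a).1 (ha _ ⟨n, rfl⟩)⟩

theorem not_commute (hU : IsAleph1Saturated Lg U) (σ : ℝ) :
    ¬ Commutes i (pT i σ) (rT i σ) := by
  letI := tlU i
  have hMc : (Set.range i).Countable := by
    have := Pool.Agent.W5h80.TL.Mod.countable
    exact Set.countable_range _
  obtain ⟨κ, hκ⟩ := exists_limit i hU
  -- the hidden coordinate of the points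
  have hval : ∀ p : ℕ × ℚ, dd (dd ((i ∘ zz p) 0) κ) ((i ∘ zz p) 1) = cc i p.2 := by
    intro p
    change dd (dd (i (Pool.Agent.W5h80.TL.Mod.v (kap p.1))) κ)
      (i (Pool.Agent.W5h80.TL.Mod.g (modv (gam p.1) p.2 1))) = _
    rw [hκ, ← map_dd, Pool.Agent.W5h80.TL.Mod.dd_eq,
      Pool.Agent.W5h80.TL.Mod.dist_gg (ne_modv _ _ one_ne_zero), fd_modv _ _ one_ne_zero]
    rfl
  intro hcom
  have h := hcom 1 fW (fun _ => κ)
  have hleft : TensorMem i (pT i σ) (rT i σ) fW (fun _ => κ) := by
    obtain ⟨b, hb⟩ := exists_realizes hU (rT i σ)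
      (B := Set.range i ∪ Set.range (fun _ : Fin 1 => κ)) (hMc.union (Set.countable_range _))
    refine ⟨b, hb, ?_⟩
    rw [mem_pT]
    refine (of_left (leftF_lt σ)).mono fun q hq => ?_
    rw [Formula.realize_relabel, realize_fW, rr_iff]
    change cc i q < dd (dd (b 0) κ) (b 1)
    -- use the type of b
    have h1 := hb.tuple (u := Sum.elim (fun _ : Unit => cc i q) (fun _ : Unit => κ)) (by
      rintro (j | j)
      · exact Or.inl ⟨_, rfl⟩
      · exact Or.inr ⟨0, rfl⟩) fW'
    rw [realize_fW', rr_iff] at h1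
    refine h1.1 ?_
    rw [mem_rT]
    have h2 : ∀ᶠ p : ℕ × ℚ in ((Filter.atTop : Filter ℕ) ×ˢ leftF σ), q < p.2 :=
      (leftF_gt σ hq).prod_inr _
    refine (of_prod h2).mono fun p hp => ?_
    rw [realize_map, realize_fW', rr_iff]
    change cc i q < dd (dd ((i ∘ zz p) 0) κ) ((i ∘ zz p) 1)
    rw [hval]
    exact (cc_lt i q p.2).2 hp
  obtain ⟨a, ha, hmem⟩ := h.1 hleft
  rw [mem_rT] at hmem
  have h3 : ∀ᶠ p : ℕ × ℚ in ((Filter.atTop : Filter ℕ) ×ˢ leftF σ), (p.2 : ℝ) < σ :=
    (leftF_lt σ).prod_inr _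
  obtain ⟨p, h4, h5⟩ := (hmem.and (of_prod h3)).exists
  rw [Formula.realize_relabel, Formula.realize_relabel, realize_fW, rr_iff] at h4
  have h6 : a 0 < dd (dd ((i ∘ zz p) 0) κ) ((i ∘ zz p) 1) := h4
  rw [hval] at h6
  exact absurd (pT_gt i ha (fun _ hx => Or.inl hx) h5) h6.asymm

end special

/-- There are a countable language, a countable structure `M` in it whose complete theory is NIP
and dp-minimal, and a complete type `q` over `M` in two variables such that the following holds
for all `ℵ₁`-saturated elementary extensions `U` of `M`: for every countable set `Q` of coheirs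
of `q` over `U` there is an `M`-invariant type `p` over `U` in one variable which commutes over
`M` with all members of `Q`, but does not commute over `M` with some coheir of `q`. -/
theorem result :
    ∃ (L : FirstOrder.Language.{0, 0}) (M : Type) (_ : L.Structure M),
      Countable (Σ l, L.Functions l) ∧ Countable (Σ l, L.Relations l) ∧ Countable M ∧
      IsNIP L M ∧ IsDpMinimal L M ∧
      ∃ q : GType L M (Fin 2), ∀ (U : Type) (_ : L.Structure U) (i : M ↪ₑ[L] U),
        IsAleph1Saturated L U →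
        ∀ Q : Set (GType L U (Fin 2)), Q.Countable → (∀ r ∈ Q, IsCoheir i q r) →
          ∃ p : GType L U (Fin 1), IsInvariant i p ∧ (∀ r ∈ Q, Commutes i p r) ∧
            ∃ r : GType L U (Fin 2), IsCoheir i q r ∧ ¬ Commutes i p r := by
  refine ⟨Lg, Pool.Agent.W5h80.TL.Mod, inferInstance, inferInstance, inferInstance,
    Pool.Agent.W5h80.TL.Mod.countable, fun n m φ => nip n m φ, fun n m φ ψ => dpmin n m φ ψ,
    qT, ?_⟩
  intro U _ i hU Q hQ hcoh
  have hbad : (⋃ r ∈ Q, {σ : ℝ | ¬ Commutes i (pT i σ) r}).Countable :=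
    hQ.biUnion fun r hr => (finite_bad i hU r (hcoh r hr).2).countable
  obtain ⟨σ, hσ⟩ : ∃ σ : ℝ, σ ∉ ⋃ r ∈ Q, {σ : ℝ | ¬ Commutes i (pT i σ) r} := by
    by_contra hcon
    push Not at hcon
    exact Set.not_countable_univ (hbad.mono fun x _ => hcon x)
  refine ⟨pT i σ, (fs_ofUltra _ _).isInvariant, ?_, rT i σ, rT_coheir i σ, not_commute i hU σ⟩
  intro r hr
  by_contra hne
  exact hσ (Set.mem_biUnion hr hne)

end Pool.Agent.Results.MP_d4560b_lc.NoCountableTestSet
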